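import Pool.Agent.Lib.Helper82.Mob.Complete
import Pool.Agent.Lib.Helper82.Mob.FTC
import Pool.Agent.Lib.Helper82.Mob.Line
import Pool.Agent.Lib.Helper82.Mob.FsT

/-!
# A second index-one non-orientable minimal surface in Euclidean four-space

There is a complete, embedded, non-orientable minimal surface of finite total Gauss curvature and
Morse index exactly one in `E4` which is not similar to the Moebius band `FS_{2,1}`.

The surface is the quotient of `ℂ ∖ {0, 1, -1}` by `z ↦ -1 / conj z` (a projective plane with two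
points removed), immersed by `u = Re F` with
`F = (z - 1/z + 1/(z-1) + 1/(z+1), -i (z + 1/z), -√3 (1/(z-1) + 1/(z+1)),
  -2i (1 + 1/(z-1) - 1/(z+1)))`.
-/

set_option autoImplicit false

namespace Pool.Agent.Results.MP_d16699_gt.NotUnique

open Pool.Agent.Lib.Helper82.Mob

theorem result :
    ∃ T : ℝ, (∀ T' : ℝ, IsT 2 1 T' ↔ T' = T) ∧
    ∃ (Ω : Set ℂ) (ι : ℂ → ℂ) (u : ℂ → E4),
      IsOrientationCover Ω ι ∧ IsConformalImmersion Ω ι u ∧ (∀ z ∈ Ω, meanCurv u z = 0) ∧
      IsCompleteSurface Ω u ∧ IsEmbeddedSurface Ω ι u ∧ FiniteTotalCurvature Ω u ∧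
      HasIndex Ω ι u 1 ∧
      ∀ (A : E4 ≃ₗᵢ[ℝ] E4) (c : ℝ) (b : E4), 0 < c →
        u '' Ω ≠ (fun x => c • A x + b) '' fsSurface 2 1 T := by
  obtain ⟨T, hT⟩ := exists_T
  exact ⟨T, hT, Om, iot, uu, isOrientationCover, isConformalImmersion, fun _ hz => meanCurv_uu hz,
    isCompleteSurface, isEmbeddedSurface, finiteTotalCurvature, hasIndex_one,
    fun A _ b hc => not_similar T A hc b⟩

end Pool.Agent.Results.MP_d16699_gt.NotUnique
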